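import Mathlib
import Pool.Agent.Helper57.Met.Assemble
import Pool.Agent.Helper61.Met.Edges

/-!
# The non-cut part of the skeleton of the metric polytope is connected

Own statement in the coordinates of the question (one coordinate for each unordered pair of distinct
points, inequalities for pairwise distinct points only) and with edges defined as exposed faces.
-/

set_option autoImplicit false

namespace Pool.Agent.Results.MP_a4aaa3_co.ExposedSkeleton

/-- The coordinates: unordered pairs of distinct elements of an `n`-element set. -/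
abbrev Pairs (n : ℕ) : Type := {e : Sym2 (Fin n) // ¬ e.IsDiag}

/-- The unordered pair `{i, j}` of two distinct elements. -/
def pr {n : ℕ} {i j : Fin n} (h : i ≠ j) : Pairs n := ⟨s(i, j), by simpa using h⟩

/-- The metric polytope `m_n`: the triangle and the perimeter inequalities for all pairwise distinct
`i`, `j`, `k`. -/
def MetricPolytope (n : ℕ) : Set (Pairs n → ℝ) :=
  {x | ∀ (i j k : Fin n) (hij : i ≠ j) (hik : i ≠ k) (hjk : j ≠ k),
    x (pr hij) - x (pr hik) - x (pr hjk) ≤ 0 ∧ x (pr hij) + x (pr hik) + x (pr hjk) ≤ 2}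

open scoped Classical in
/-- The cut vector of `S`: the coordinate of a pair is `1` if one of its elements lies in `S` and
the other one does not, and `0` otherwise. -/
noncomputable def cutVector {n : ℕ} (S : Finset (Fin n)) : Pairs n → ℝ :=
  fun e => if (∃ i ∈ e.1, i ∈ S) ∧ (∃ j ∈ e.1, j ∉ S) then 1 else 0

/-- The non-cut vertices: the extreme points of the metric polytope that are not cut vectors. -/
abbrev NonCutVertex (n : ℕ) : Type :=
  {x : Pairs n → ℝ // x ∈ (MetricPolytope n).extremePoints ℝ ∧ ∀ S : Finset (Fin n), x ≠ cutVector S}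

/-- `x` and `y` span an edge of the metric polytope: they are distinct and the segment between them
is the set of points of the polytope at which some linear functional is maximal. -/
def SpanEdge {n : ℕ} (x y : Pairs n → ℝ) : Prop :=
  x ≠ y ∧ ∃ l : (Pairs n → ℝ) →ₗ[ℝ] ℝ,
    segment ℝ x y = {z | z ∈ MetricPolytope n ∧ ∀ w ∈ MetricPolytope n, l w ≤ l z}

/-- The subgraph of the skeleton of the metric polytope induced by the non-cut vertices. -/
def nonCutSkeleton (n : ℕ) : SimpleGraph (NonCutVertex n) where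
  Adj x y := SpanEdge x.1 y.1
  symm := ⟨fun x y h => ⟨h.1.symm, by obtain ⟨_, l, hl⟩ := h; exact ⟨l, by rw [segment_symm]; exact hl⟩⟩⟩
  loopless := ⟨fun _ h => h.1 rfl⟩

/-! ### Transfer to the coordinates used in the proof -/

open Pool.Agent.Helper57.Met

section Transfer

variable {n : ℕ}

open scoped Classical in
/-- extension by zero to the diagonal -/
noncomputable def hat : (Pairs n → ℝ) →ₗ[ℝ] (Sym2 (Fin n) → ℝ) where
  toFun x e := if h : ¬ e.IsDiag then x ⟨e, h⟩ else 0
  map_add' x y := by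
    funext e
    by_cases h : e.IsDiag <;> simp [h]
  map_smul' c x := by
    funext e
    by_cases h : e.IsDiag <;> simp [h]

theorem hat_pr (x : Pairs n → ℝ) {i j : Fin n} (h : i ≠ j) : hat x s(i, j) = x (pr h) := by
  change (if h : ¬ (s(i, j)).IsDiag then x ⟨s(i, j), h⟩ else 0) = _
  rw [dif_pos (by simpa using h)]
  rfl

theorem hat_diag (x : Pairs n → ℝ) (i : Fin n) : hat x s(i, i) = 0 := by
  change (if h : ¬ (s(i, i)).IsDiag then x ⟨s(i, i), h⟩ else 0) = _
  rw [dif_neg (by simp)]

/-- restriction -/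
noncomputable def unhat : (Sym2 (Fin n) → ℝ) →ₗ[ℝ] (Pairs n → ℝ) where
  toFun z e := z e.1
  map_add' x y := by funext e; simp
  map_smul' c x := by funext e; simp

theorem unhat_pr (z : Sym2 (Fin n) → ℝ) {i j : Fin n} (h : i ≠ j) :
    unhat z (pr h) = z s(i, j) := rfl

theorem unhat_hat (x : Pairs n → ℝ) : unhat (hat x) = x := by
  funext e
  obtain ⟨e, he⟩ := e
  change (if h : ¬ e.IsDiag then x ⟨e, h⟩ else 0) = _
  rw [dif_pos he]

theorem hat_unhat {z : Sym2 (Fin n) → ℝ} (hz : z ∈ MetP (Fin n)) : hat (unhat z) = z := by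
  funext e
  induction e with
  | _ i j =>
    by_cases h : i = j
    · subst h; rw [hat_diag, hz.1 i]
    · rw [hat_pr _ h, unhat_pr]

theorem unhat_mem {z : Sym2 (Fin n) → ℝ} (hz : z ∈ MetP (Fin n)) : unhat z ∈ MetricPolytope n := by
  intro i j k hij hik hjk
  rw [unhat_pr, unhat_pr, unhat_pr]
  have h1 := hz.2.1 i j k
  have h2 := hz.2.2 i j k
  rw [Sym2.eq_swap (a := k) (b := j)] at h1
  constructor <;> linarith

theorem exists_third (hn : 3 ≤ n) (i j : Fin n) : ∃ k : Fin n, i ≠ k ∧ j ≠ k := by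
  by_contra hcon
  push Not at hcon
  have h1 : (Finset.univ : Finset (Fin n)) ⊆ {i, j} := by
    intro k _
    by_cases h : i = k
    · simp [h]
    · have := hcon k h
      simp [this]
  have h2 := Finset.card_le_card h1
  have h3 : ({i, j} : Finset (Fin n)).card ≤ 2 := Finset.card_le_two
  rw [Finset.card_univ, Fintype.card_fin] at h2
  omega

theorem bound (hn : 3 ≤ n) {x : Pairs n → ℝ} (hx : x ∈ MetricPolytope n) {i j : Fin n}
    (h : i ≠ j) : 0 ≤ x (pr h) ∧ x (pr h) ≤ 1 := by
  obtain ⟨k, hik, hjk⟩ := exists_third hn i j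
  have h1 := hx i j k h hik hjk
  have h2 := hx i k j hik h hjk.symm
  have h3 := hx j k i hjk h.symm hik.symm
  have e1 : pr hjk.symm = pr hjk := Subtype.ext (Sym2.eq_swap)
  have e2 : pr h.symm = pr h := Subtype.ext (Sym2.eq_swap)
  have e3 : pr hik.symm = pr hik := Subtype.ext (Sym2.eq_swap)
  rw [e1] at h2
  rw [e2, e3] at h3
  constructor
  · linarith [h2.1, h3.1]
  · linarith [h1.1, h1.2]

theorem hat_mem (hn : 3 ≤ n) {x : Pairs n → ℝ} (hx : x ∈ MetricPolytope n) :
    hat x ∈ MetP (Fin n) := by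
  have hb : ∀ i j : Fin n, 0 ≤ hat x s(i, j) ∧ hat x s(i, j) ≤ 1 := by
    intro i j
    by_cases h : i = j
    · subst h; rw [hat_diag]; norm_num
    · rw [hat_pr _ h]; exact bound hn hx h
  refine ⟨hat_diag x, fun i j k => ?_, fun i j k => ?_⟩
  · by_cases hij : i = j
    · subst hij; rw [hat_diag]
      exact add_nonneg (hb i k).1 (hb k i).1
    by_cases hik : i = k
    · subst hik; rw [hat_diag]; linarith
    by_cases hjk : j = k
    · subst hjk; rw [hat_diag]; linarith
    have h1 := (hx i j k hij hik hjk).1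
    rw [Sym2.eq_swap (a := k) (b := j), hat_pr _ hij, hat_pr _ hik, hat_pr _ hjk]
    linarith
  · by_cases hij : i = j
    · subst hij; rw [hat_diag]
      have := (hb i k).2
      linarith
    by_cases hik : i = k
    · subst hik
      rw [hat_diag, Sym2.eq_swap (a := j) (b := i)]
      have := (hb i j).2
      linarith
    by_cases hjk : j = k
    · subst hjk; rw [hat_diag]
      have := (hb i j).2
      linarith
    have h1 := (hx i j k hij hik hjk).2
    rw [hat_pr _ hij, hat_pr _ hik, hat_pr _ hjk]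
    exact h1

theorem cutVector_eq (ε : Fin n → Bool) :
    cutVector (Finset.univ.filter (fun i => ε i = true)) = unhat (cut ε) := by
  funext e
  obtain ⟨e, he⟩ := e
  induction e with
  | _ i j =>
    change _ = cut ε s(i, j)
    rw [cut_mk]
    unfold cutVector
    cases hi : ε i <;> cases hj : ε j <;> simp [hi, hj]

theorem cutVector_eq' (S : Finset (Fin n)) :
    cutVector S = unhat (cut (fun i => decide (i ∈ S))) := by
  rw [← cutVector_eq]
  congr 1
  ext i
  simp

/-- being a cut vector -/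
def Q (n : ℕ) (x : Pairs n → ℝ) : Prop := ∃ S : Finset (Fin n), x = cutVector S

theorem Q_mem {x : Pairs n → ℝ} (hx : Q n x) : x ∈ MetricPolytope n := by
  obtain ⟨S, rfl⟩ := hx
  rw [cutVector_eq']
  exact unhat_mem (cut_mem _)

theorem Q_finite : {x : Pairs n → ℝ | Q n x}.Finite := by
  have : {x : Pairs n → ℝ | Q n x} = Set.range (fun S : Finset (Fin n) => cutVector S) := by
    ext x; constructor
    · rintro ⟨S, rfl⟩; exact ⟨S, rfl⟩
    · rintro ⟨S, rfl⟩; exact ⟨S, rfl⟩
  rw [this]; exact Set.finite_range _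

/-- the index set of the inequalities -/
abbrev Idx (n : ℕ) : Type :=
  {p : Bool × Fin n × Fin n × Fin n // p.2.1 ≠ p.2.2.1 ∧ p.2.1 ≠ p.2.2.2 ∧ p.2.2.1 ≠ p.2.2.2}

/-- a coordinate -/
noncomputable def co {n : ℕ} (e : Pairs n) : (Pairs n → ℝ) →ₗ[ℝ] ℝ := LinearMap.proj e

theorem co_apply {n : ℕ} (e : Pairs n) (x : Pairs n → ℝ) : co e x = x e := rfl

/-- the inequalities -/
noncomputable def La (n : ℕ) (p : Idx n) : (Pairs n → ℝ) →ₗ[ℝ] ℝ :=
  if p.1.1 then co (pr p.2.1) - co (pr p.2.2.1) - co (pr p.2.2.2)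
  else co (pr p.2.1) + co (pr p.2.2.1) + co (pr p.2.2.2)

noncomputable def Lb (n : ℕ) (p : Idx n) : ℝ := if p.1.1 then 0 else 2

theorem MP_eq (n : ℕ) : MetricPolytope n = {x | ∀ i, La n i x ≤ Lb n i} := by
  ext x
  constructor
  · rintro h ⟨⟨b, i, j, k⟩, hij, hik, hjk⟩
    have h1 := h i j k hij hik hjk
    cases b
    · simpa [La, Lb, co_apply] using h1.2
    · simpa [La, Lb, co_apply] using h1.1
  · intro h i j k hij hik hjk
    have h1 := h ⟨⟨true, i, j, k⟩, hij, hik, hjk⟩
    have h2 := h ⟨⟨false, i, j, k⟩, hij, hik, hjk⟩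
    constructor
    · simpa [La, Lb, co_apply] using h1
    · simpa [La, Lb, co_apply] using h2

theorem MP_closed (n : ℕ) : IsClosed (MetricPolytope n) := by
  have h1 : MetricPolytope n = ⋂ p, {x | La n p x ≤ Lb n p} := by
    rw [MP_eq]; ext x; simp
  rw [h1]
  exact isClosed_iInter fun p =>
    isClosed_le (LinearMap.continuous_of_finiteDimensional _) continuous_const

theorem MP_compact (hn : 3 ≤ n) : IsCompact (MetricPolytope n) := by
  have h1 : IsCompact (Set.pi Set.univ (fun _ : Pairs n => Set.Icc (0:ℝ) 1)) :=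
    isCompact_univ_pi fun _ => isCompact_Icc
  refine h1.of_isClosed_subset (MP_closed n) ?_
  intro x hx e _
  obtain ⟨e, he⟩ := e
  induction e with
  | _ i j =>
    have hij : i ≠ j := by simpa using he
    exact ⟨(bound hn hx hij).1, (bound hn hx hij).2⟩

theorem MP_convex (n : ℕ) : Convex ℝ (MetricPolytope n) := by
  have h1 : MetricPolytope n = ⋂ p, {x | La n p x ≤ Lb n p} := by
    rw [MP_eq]; ext x; simp
  rw [h1]
  exact convex_iInter fun p => convex_halfSpace_le (La n p).isLinear _

theorem MP_ext_finite (n : ℕ) : (Set.extremePoints ℝ (MetricPolytope n)).Finite := by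
  rw [MP_eq]; exact finite_extremePoints _ _

theorem MP_finPoly (hn : 3 ≤ n) : FinPoly (MetricPolytope n) (MP_ext_finite n).toFinset :=
  finPoly_of_finite (MP_compact hn) (MP_convex n) _

theorem rel_hat {u : Pairs n → ℝ} (hu : u ∈ Set.extremePoints ℝ (MetricPolytope n))
    (hQ : ¬ Q n u) : Rel (hat u) (hat u) := by
  have hnot : u ∉ convexHull ℝ {x | Q n x} := by
    intro hmem
    have hsub : convexHull ℝ {x | Q n x} ⊆ MetricPolytope n :=
      convexHull_min (fun x hx => Q_mem hx) (MP_convex n)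
    have h1 := inter_extremePoints_subset_extremePoints_of_subset hsub ⟨hmem, hu⟩
    have h2 : u ∈ {x | Q n x} := extremePoints_convexHull_subset h1
    exact hQ h2
  obtain ⟨f, s, h1, h2⟩ := geometric_hahn_banach_closed_point (convex_convexHull ℝ _)
    (Q_finite.isClosed_convexHull ℝ) hnot
  refine ⟨((f.toLinearMap.comp unhat).toAffineMap - AffineMap.const ℝ _ s), fun ε => ?_, ?_, ?_⟩
  · have h3 := h1 _ (subset_convexHull ℝ _ (⟨_, (cutVector_eq ε).symm⟩ : Q n (unhat (cut ε))))
    simp
    exact h3.le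
  · simp [unhat_hat]; exact h2
  · simp [unhat_hat]; exact h2

theorem lnk_of_lk {x y : Sym2 (Fin n) → ℝ} (h : Lk x y) :
    Lnk (MetricPolytope n) (Q n) (unhat x) (unhat y) := by
  obtain ⟨hx, hy, f, h1, h2, h3⟩ := h
  have hf : ∀ z, f z = f.linear z + f 0 := by
    intro z
    have := congrFun f.decomp z
    simpa using this
  refine ⟨unhat_mem hy, f.linear.comp hat, - f 0, fun x _ hQ => ?_, ?_, ?_⟩
  · obtain ⟨S, rfl⟩ := hQ
    have h4 := h1 (fun i => decide (i ∈ S))
    rw [hf] at h4
    rw [LinearMap.comp_apply, cutVector_eq', hat_unhat (cut_mem _)]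
    linarith
  · rw [LinearMap.comp_apply, hat_unhat hx]
    rw [hf] at h2; linarith
  · rw [LinearMap.comp_apply, hat_unhat hy]
    rw [hf] at h3; linarith

theorem chain_of_ch {x y : Sym2 (Fin n) → ℝ} (h : Ch x y) :
    Relation.ReflTransGen (Lnk (MetricPolytope n) (Q n)) (unhat x) (unhat y) := by
  induction h with
  | refl => exact Relation.ReflTransGen.refl
  | tail _ h ih => exact ih.tail (lnk_of_lk h)

theorem final (hn : 6 ≤ n) : (Pool.Agent.Helper61.Met.HE (MetricPolytope n) (Q n)).Connected := by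
  have hn3 : 3 ≤ n := by omega
  apply Pool.Agent.Helper61.Met.connected_of_chain (MP_finPoly hn3)
  · intro u v
    have hu := u.2.1.1
    have hv := v.2.1.1
    have h1 : Ch (hat u.1) (hat v.1) :=
      all_linked mainClaim (by simpa using hn) (hat_mem hn3 hu) (rel_hat u.2.1 u.2.2)
        (hat_mem hn3 hv) (rel_hat v.2.1 v.2.2)
    have h2 := chain_of_ch h1
    rwa [unhat_hat, unhat_hat] at h2
  · -- nonempty
    have h0 : 0 < n := by omega
    have h1 := om_link (V := Fin n) (by simpa using hn) ⟨0, h0⟩ (fun _ => false) (fun _ => false)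
      (fun _ _ => rfl)
    obtain ⟨hy, c, κ, hc, hκ1, hκ2⟩ := lnk_of_lk h1
    have hVP : ∀ x ∈ (MP_ext_finite n).toFinset, x ∈ MetricPolytope n := by
      intro x hx; simp at hx; exact hx.1
    obtain ⟨v, _⟩ := exists_vertex_gt (MP_finPoly hn3) c κ (fun x hx => hc x (hVP x hx)) hy hκ2
    exact ⟨v⟩

end Transfer

/-- For every `n ≥ 6` the subgraph of the skeleton of the metric polytope `m_n` induced by the
non-cut vertices is connected. -/
theorem result : ∀ n : ℕ, 6 ≤ n → (nonCutSkeleton n).Connected := by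
  intro n hn
  let e : NQ (MetricPolytope n) (Q n) ≃ NonCutVertex n :=
    { toFun := fun x => ⟨x.1, x.2.1, fun S hS => x.2.2 ⟨S, hS⟩⟩
      invFun := fun x => ⟨x.1, x.2.1, fun ⟨S, hS⟩ => x.2.2 S hS⟩
      left_inv := fun x => rfl
      right_inv := fun x => rfl }
  let φ : Pool.Agent.Helper61.Met.HE (MetricPolytope n) (Q n) ≃g nonCutSkeleton n :=
    { e with map_rel_iff' := Iff.rfl }
  exact φ.connected_iff.1 (final hn)

end Pool.Agent.Results.MP_a4aaa3_co.ExposedSkeleton
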